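import Pool.Agent.U682.SkD

set_option autoImplicit false

/-!
# Retractional skeletons in `P(K)` and in the dual ball, and projectional skeletons of `C(K)`

For every compact Hausdorff space `K`: if `P(K)` has an r-skeleton inducing a convex set, or if the
dual unit ball of `C(K)` (weak* topology) has an r-skeleton inducing a convex symmetric set, then
`C(K)` has a 1-projectional skeleton. With the classical implication from (i) to (ii) this answers
the three questions (a), (b), (c) of the problem positively.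
-/

open Topology Filter Set MeasureTheory

namespace Pool.Agent.Results.MP_baa10a_an.ConvexSkeletons

open Pool.Agent.U682.SkA Pool.Agent.U682.SkB Pool.Agent.U682.SkC Pool.Agent.U682.SkD

universe u v

/-- The closed unit ball of `C(K)*`, as a subset of `C(K)*` with the weak* topology. -/
def DualBall (K : Type u) [TopologicalSpace K] [CompactSpace K] : Set (WeakDual ℝ C(K, ℝ)) :=
  {φ | ‖WeakDual.toStrongDual φ‖ ≤ 1}

/-- `P(K)`: the Radon probability measures on `K`, as elements `f ↦ ∫ f dμ` of `C(K)*` with the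
weak* topology. -/
def PK (K : Type u) [TopologicalSpace K] [MeasurableSpace K] : Set (WeakDual ℝ C(K, ℝ)) :=
  {φ | ∃ μ : Measure K, IsProbabilityMeasure μ ∧ μ.Regular ∧ ∀ f : C(K, ℝ), φ f = ∫ x, f x ∂μ}

/-- The set `⋃ s, r s [L]` induced by the family `r` of self-maps of `L`. -/
def Induced {K : Type u} [TopologicalSpace K] {Γ : Type v}
    {L : Set (WeakDual ℝ C(K, ℝ))} (r : Γ → L → L) : Set (WeakDual ℝ C(K, ℝ)) :=
  {φ | ∃ (s : Γ) (ψ : L), φ = (r s ψ : WeakDual ℝ C(K, ℝ))}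

/-- (i): `C(K)` has a 1-projectional skeleton. -/
def CondI (K : Type u) [TopologicalSpace K] [CompactSpace K] : Prop :=
  ∃ (Γ : Type v) (_ : PartialOrder Γ) (P : Γ → C(K, ℝ) →L[ℝ] C(K, ℝ)), IsOneProjSkeleton P

/-- (ii): a convex symmetric subset of the dual ball is induced by an r-skeleton in the ball. -/
def CondII (K : Type u) [TopologicalSpace K] [CompactSpace K] : Prop :=
  ∃ (Γ : Type v) (_ : PartialOrder Γ) (r : Γ → DualBall K → DualBall K), IsRSkeleton r ∧
    Convex ℝ (Induced r) ∧ ∀ φ ∈ Induced r, -φ ∈ Induced r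

/-- (iii): a convex subset of `P(K)` is induced by an r-skeleton in `P(K)`. -/
def CondIII (K : Type u) [TopologicalSpace K] [MeasurableSpace K] : Prop :=
  ∃ (Γ : Type v) (_ : PartialOrder Γ) (r : Γ → PK K → PK K), IsRSkeleton r ∧
    Convex ℝ (Induced r)

section Sets

variable {K : Type u} [TopologicalSpace K] [CompactSpace K]

theorem ball_bound {φ : WeakDual ℝ C(K, ℝ)} (hφ : φ ∈ DualBall K) (f : C(K, ℝ)) :
    |φ f| ≤ ‖f‖ := by
  have h1 := (WeakDual.toStrongDual φ).le_opNorm f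
  have h2 : ‖WeakDual.toStrongDual φ‖ ≤ 1 := hφ
  calc |φ f| = ‖WeakDual.toStrongDual φ f‖ := rfl
    _ ≤ ‖WeakDual.toStrongDual φ‖ * ‖f‖ := h1
    _ ≤ 1 * ‖f‖ := mul_le_mul_of_nonneg_right h2 (norm_nonneg _)
    _ = ‖f‖ := one_mul _

theorem mem_ball_of_bound {φ : WeakDual ℝ C(K, ℝ)} (h : ∀ f : C(K, ℝ), |φ f| ≤ ‖f‖) :
    φ ∈ DualBall K := by
  show ‖WeakDual.toStrongDual φ‖ ≤ 1
  refine ContinuousLinearMap.opNorm_le_bound _ zero_le_one fun f => ?_
  rw [one_mul]
  exact h f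

theorem ball_compact : IsCompact (DualBall K) := by
  have : DualBall K = WeakDual.toStrongDual ⁻¹' Metric.closedBall (0 : StrongDual ℝ C(K, ℝ)) 1 := by
    ext φ
    exact (mem_closedBall_zero_iff (a := WeakDual.toStrongDual φ)).symm
  rw [this]
  exact WeakDual.isCompact_closedBall (0 : StrongDual ℝ C(K, ℝ)) 1

theorem dirac_mem_ball (k : K) : dirac k ∈ DualBall K :=
  mem_ball_of_bound fun f => f.norm_coe_le_norm k

variable [T2Space K] [MeasurableSpace K] [BorelSpace K]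

theorem mem_PK_iff (φ : WeakDual ℝ C(K, ℝ)) :
    φ ∈ PK K ↔ (∀ f : C(K, ℝ), 0 ≤ f → 0 ≤ φ f) ∧ φ 1 = 1 := by
  constructor
  · rintro ⟨μ, h1, h2, h3⟩
    refine ⟨fun f hf => ?_, ?_⟩
    · rw [h3]
      exact integral_nonneg fun x => hf x
    · rw [h3]
      simp
  · rintro ⟨h1, h2⟩
    let Λ : CompactlySupportedContinuousMap K ℝ →ₚ[ℝ] ℝ := PositiveLinearMap.mk₀
      { toFun := fun f => φ (f : C(K, ℝ))
        map_add' := fun f g => map_add φ (f : C(K, ℝ)) g
        map_smul' := fun c f => map_smul φ c (f : C(K, ℝ)) } (fun f hf => h1 _ hf)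
    have hint : ∀ f : C(K, ℝ), φ f = ∫ x, f x ∂(RealRMK.rieszMeasure Λ) := by
      intro f
      have := RealRMK.integral_rieszMeasure Λ
        (CompactlySupportedContinuousMap.continuousMapEquiv f)
      exact this.symm
    refine ⟨RealRMK.rieszMeasure Λ, ⟨?_⟩, inferInstance, hint⟩
    have e1 := hint 1
    rw [h2] at e1
    have e2 : ∫ x, (1 : C(K, ℝ)) x ∂(RealRMK.rieszMeasure Λ) =
        (RealRMK.rieszMeasure Λ).real univ := by simp
    rw [e2, Measure.real] at e1
    have := (ENNReal.toReal_eq_one_iff _).1 e1.symm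
    exact this

theorem PK_bound {φ : WeakDual ℝ C(K, ℝ)} (hφ : φ ∈ PK K) (f : C(K, ℝ)) : |φ f| ≤ ‖f‖ := by
  obtain ⟨h1, h2⟩ := (mem_PK_iff φ).1 hφ
  have h3 : 0 ≤ φ (‖f‖ • (1 : C(K, ℝ)) - f) := h1 _ fun x => by
    have h5 := (le_abs_self (f x)).trans (f.norm_coe_le_norm x)
    show (0 : ℝ) ≤ ‖f‖ * 1 - f x
    linarith
  have h4 : 0 ≤ φ (‖f‖ • (1 : C(K, ℝ)) + f) := h1 _ fun x => by
    have h5 := (neg_le_abs (f x)).trans (f.norm_coe_le_norm x)
    show (0 : ℝ) ≤ ‖f‖ * 1 + f x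
    linarith
  rw [map_sub, map_smul, h2] at h3
  rw [map_add, map_smul, h2] at h4
  simp only [smul_eq_mul, mul_one] at h3 h4
  exact abs_le.2 ⟨by linarith, by linarith⟩

theorem PK_compact : IsCompact (PK K) := by
  refine ball_compact.of_isClosed_subset ?_ fun φ hφ => mem_ball_of_bound (PK_bound hφ)
  have : PK K = (⋂ (f : C(K, ℝ)) (_ : 0 ≤ f), {φ : WeakDual ℝ C(K, ℝ) | 0 ≤ φ f}) ∩
      {φ : WeakDual ℝ C(K, ℝ) | φ 1 = 1} := by
    ext φ
    rw [mem_PK_iff]
    simp
  rw [this]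
  refine IsClosed.inter (isClosed_iInter fun f =>
    isClosed_iInter fun _ => isClosed_le continuous_const (WeakDual.eval_continuous f)) ?_
  exact isClosed_eq (WeakDual.eval_continuous _) continuous_const

theorem dirac_mem_PK (k : K) : dirac k ∈ PK K :=
  (mem_PK_iff _).2 ⟨fun f hf => hf k, rfl⟩

end Sets

section Forward

variable {K : Type u} [TopologicalSpace K] [CompactSpace K]

/-- (ii) implies (i). -/
theorem condI_of_condII [T2Space K] (h : CondII.{u, v} K) : CondI.{u, v} K := by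
  obtain ⟨Γ, _, r, hr, hconv, hsym⟩ := h
  have hAL : ∀ p ∈ A2, ∀ x y : DualBall K,
      p.1 • (x : WeakDual ℝ C(K, ℝ)) + p.2 • (y : WeakDual ℝ C(K, ℝ)) ∈ DualBall K := by
    intro p hp x y
    refine mem_ball_of_bound fun f => ?_
    have h1 := ball_bound x.2 f
    have h2 := ball_bound y.2 f
    have hp' : |p.1| + |p.2| ≤ 1 := hp
    calc |(p.1 • (x : WeakDual ℝ C(K, ℝ)) + p.2 • (y : WeakDual ℝ C(K, ℝ))) f|
        = |p.1 * (x : WeakDual ℝ C(K, ℝ)) f + p.2 * (y : WeakDual ℝ C(K, ℝ)) f| := rfl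
      _ ≤ |p.1| * |(x : WeakDual ℝ C(K, ℝ)) f| + |p.2| * |(y : WeakDual ℝ C(K, ℝ)) f| := by
          rw [← abs_mul, ← abs_mul]; exact abs_add_le _ _
      _ ≤ |p.1| * ‖f‖ + |p.2| * ‖f‖ := by gcongr
      _ = (|p.1| + |p.2|) * ‖f‖ := by ring
      _ ≤ 1 * ‖f‖ := by gcongr
      _ = ‖f‖ := one_mul _
  have hI : ∀ x : DualBall K, (∃ s, x ∈ range (r s)) ↔ (x : WeakDual ℝ C(K, ℝ)) ∈ Induced r := by
    intro x
    constructor
    · rintro ⟨s, y, rfl⟩
      exact ⟨s, y, rfl⟩
    · rintro ⟨s, y, hy⟩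
      exact ⟨s, y, Subtype.ext hy.symm⟩
  refine Pool.Agent.U682.SkC.main ball_compact dirac_mem_ball (fun φ hφ f => ball_bound hφ f) hr A2 hAL ?_ ?_ ?_
  · intro p x y hx hy
    rw [hI] at hx hy ⊢
    have h0 : (0 : WeakDual ℝ C(K, ℝ)) ∈ Induced r := by
      have := hconv hx (hsym _ hx) (by norm_num : (0 : ℝ) ≤ 1 / 2) (by norm_num : (0 : ℝ) ≤ 1 / 2)
        (by norm_num)
      simpa using this
    have hp : |p.1.1| + |p.1.2| ≤ 1 := p.2
    have hsgn : ∀ (c : ℝ) (z : WeakDual ℝ C(K, ℝ)), z ∈ Induced r →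
        ∃ z' ∈ Induced r, c • z = |c| • z' := by
      intro c z hz
      rcases le_total 0 c with hc | hc
      · exact ⟨z, hz, by rw [abs_of_nonneg hc]⟩
      · exact ⟨-z, hsym _ hz, by rw [abs_of_nonpos hc, smul_neg, neg_smul, neg_neg]⟩
    obtain ⟨x', hx', ex⟩ := hsgn p.1.1 x hx
    obtain ⟨y', hy', ey⟩ := hsgn p.1.2 y hy
    show p.1.1 • (x : WeakDual ℝ C(K, ℝ)) + p.1.2 • (y : WeakDual ℝ C(K, ℝ)) ∈ Induced r
    rw [ex, ey]
    rcases (add_nonneg (abs_nonneg p.1.1) (abs_nonneg p.1.2)).eq_or_lt with h | h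
    · have e1 : |p.1.1| = 0 := by linarith [abs_nonneg p.1.1, abs_nonneg p.1.2]
      have e2 : |p.1.2| = 0 := by linarith [abs_nonneg p.1.1, abs_nonneg p.1.2]
      rw [e1, e2]
      simpa using h0
    · have e1 : |p.1.1| • x' + |p.1.2| • y' = (|p.1.1| + |p.1.2|) •
          ((|p.1.1| / (|p.1.1| + |p.1.2|)) • x' + (|p.1.2| / (|p.1.1| + |p.1.2|)) • y') := by
        rw [smul_add, smul_smul, smul_smul, mul_div_cancel₀ _ h.ne', mul_div_cancel₀ _ h.ne']
      rw [e1]
      refine hconv.smul_mem_of_zero_mem h0 ?_ ⟨h.le, hp⟩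
      exact hconv hx' hy' (by positivity) (by positivity) (by rw [← add_div, div_self h.ne'])
  · intro _
    show |(0 : ℝ)| + |(0 : ℝ)| ≤ 1
    norm_num
  · intro S _ hS hA hδ h0 φ hφ
    refine dense2 S hS hA hδ (h0 ?_) φ (ball_bound hφ)
    exact mem_ball_of_bound fun f => by
      show |(0 : ℝ)| ≤ ‖f‖
      rw [abs_zero]
      exact norm_nonneg f

/-- (iii) implies (i). -/
theorem condI_of_condIII [T2Space K] [MeasurableSpace K] [BorelSpace K]
    (h : CondIII.{u, v} K) : CondI.{u, v} K := by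
  obtain ⟨Γ, _, r, hr, hconv⟩ := h
  have hAL : ∀ p ∈ A1, ∀ x y : PK K,
      p.1 • (x : WeakDual ℝ C(K, ℝ)) + p.2 • (y : WeakDual ℝ C(K, ℝ)) ∈ PK K := by
    intro p hp x y
    obtain ⟨h1, h2⟩ := (mem_PK_iff _).1 x.2
    obtain ⟨h3, h4⟩ := (mem_PK_iff _).1 y.2
    refine (mem_PK_iff _).2 ⟨fun f hf => ?_, ?_⟩
    · show 0 ≤ p.1 * (x : WeakDual ℝ C(K, ℝ)) f + p.2 * (y : WeakDual ℝ C(K, ℝ)) f
      exact add_nonneg (mul_nonneg hp.1 (h1 f hf)) (mul_nonneg hp.2.1 (h3 f hf))
    · show p.1 * (x : WeakDual ℝ C(K, ℝ)) 1 + p.2 * (y : WeakDual ℝ C(K, ℝ)) 1 = 1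
      rw [h2, h4, mul_one, mul_one]
      exact hp.2.2
  have hI : ∀ x : PK K, (∃ s, x ∈ range (r s)) ↔ (x : WeakDual ℝ C(K, ℝ)) ∈ Induced r := by
    intro x
    constructor
    · rintro ⟨s, y, rfl⟩
      exact ⟨s, y, rfl⟩
    · rintro ⟨s, y, hy⟩
      exact ⟨s, y, Subtype.ext hy.symm⟩
  refine Pool.Agent.U682.SkC.main PK_compact dirac_mem_PK (fun _ hφ f => PK_bound hφ f) hr A1 hAL ?_ ?_ ?_
  · intro p x y hx hy
    rw [hI] at hx hy ⊢
    exact hconv hx hy p.2.1 p.2.2.1 p.2.2.2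
  · intro h0
    exfalso
    have h1 := ((mem_PK_iff _).1 h0).2
    have h2 : (0 : ℝ) = 1 := h1
    norm_num at h2
  · intro S _ hS hA hδ _ φ hφ
    obtain ⟨h1, h2⟩ := (mem_PK_iff _).1 hφ
    exact dense1 S hS hA hδ φ (PK_bound hφ) h1 h2

end Forward

section Adjoint

variable {K : Type u} [TopologicalSpace K] [CompactSpace K]

/-- The restriction of the adjoint operator to the dual ball. -/
noncomputable def adj (P : C(K, ℝ) →L[ℝ] C(K, ℝ)) (hP : ‖P‖ ≤ 1) (φ : DualBall K) : DualBall K :=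
  ⟨StrongDual.toWeakDual ((WeakDual.toStrongDual (φ : WeakDual ℝ C(K, ℝ))).comp P),
    mem_ball_of_bound fun f => by
      show |(φ : WeakDual ℝ C(K, ℝ)) (P f)| ≤ ‖f‖
      refine (ball_bound φ.2 _).trans ((P.le_opNorm f).trans ?_)
      calc ‖P‖ * ‖f‖ ≤ 1 * ‖f‖ := mul_le_mul_of_nonneg_right hP (norm_nonneg _)
        _ = ‖f‖ := one_mul _⟩

theorem adj_apply (P : C(K, ℝ) →L[ℝ] C(K, ℝ)) (hP : ‖P‖ ≤ 1) (φ : DualBall K) (f : C(K, ℝ)) :
    (adj P hP φ : WeakDual ℝ C(K, ℝ)) f = (φ : WeakDual ℝ C(K, ℝ)) (P f) := rfl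

theorem adj_continuous (P : C(K, ℝ) →L[ℝ] C(K, ℝ)) (hP : ‖P‖ ≤ 1) : Continuous (adj P hP) := by
  refine Continuous.subtype_mk ?_ _
  exact WeakDual.continuous_of_continuous_eval (fun f => eval_continuous (P f))

theorem ext_ball {φ ψ : DualBall K}
    (h : ∀ f, (φ : WeakDual ℝ C(K, ℝ)) f = (ψ : WeakDual ℝ C(K, ℝ)) f) : φ = ψ :=
  Subtype.ext (DFunLike.ext _ _ h)

theorem tendsto_ball {ι : Type v} {l : Filter ι} {a : ι → DualBall K} {φ : DualBall K}
    (h : ∀ f, Tendsto (fun i => (a i : WeakDual ℝ C(K, ℝ)) f) l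
      (𝓝 ((φ : WeakDual ℝ C(K, ℝ)) f))) : Tendsto a l (𝓝 φ) := by
  rw [tendsto_subtype_rng, tendsto_iff_forall_eval_tendsto_topDualPairing]
  exact h

/-- (i) implies (ii). -/
theorem condII_of_condI (h : CondI.{u, v} K) : CondII.{u, v} K := by
  obtain ⟨Γ, _, P, hP⟩ := h
  have hdir : IsDirectedOrder Γ := ⟨hP.directed⟩
  have hne := hP.nonempty
  refine ⟨Γ, inferInstance, fun s => adj (P s) (hP.norm_le s), ?_, ?_, ?_⟩
  · refine
      { nonempty := hP.nonempty, directed := hP.directed,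
        continuous := fun s => adj_continuous _ _, idem := ?_, metrizable := ?_,
        comp_left := ?_, comp_right := ?_, sup := ?_, lim := ?_ }
    · intro s φ
      refine ext_ball fun f => ?_
      rw [adj_apply, adj_apply, adj_apply, hP.idem]
    · intro s
      have hcomp : CompactSpace (DualBall K) := isCompact_iff_compactSpace.1 ball_compact
      have : CompactSpace (range (adj (P s) (hP.norm_le s))) :=
        isCompact_iff_compactSpace.1 (isCompact_range (adj_continuous _ _))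
      obtain ⟨c, hc, hcd⟩ := hP.separable s
      have : Countable c := hc.to_subtype
      let J : range (adj (P s) (hP.norm_le s)) → c → ℝ := fun φ y =>
        ((φ : DualBall K) : WeakDual ℝ C(K, ℝ)) y
      have hJ : Continuous J := continuous_pi fun y =>
        (eval_continuous (y : C(K, ℝ))).comp continuous_subtype_val
      have hinj : Function.Injective J := by
        rintro ⟨_, φ, rfl⟩ ⟨_, ψ, rfl⟩ hφψ
        apply Subtype.ext
        refine ext_ball fun f => ?_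
        have hcl : IsClosed {g : C(K, ℝ) |
            (adj (P s) (hP.norm_le s) φ : WeakDual ℝ C(K, ℝ)) g =
              (adj (P s) (hP.norm_le s) ψ : WeakDual ℝ C(K, ℝ)) g} :=
          isClosed_eq (WeakDual.toStrongDual _).continuous (WeakDual.toStrongDual _).continuous
        have hsub : closure c ⊆ {g : C(K, ℝ) |
            (adj (P s) (hP.norm_le s) φ : WeakDual ℝ C(K, ℝ)) g =
              (adj (P s) (hP.norm_le s) ψ : WeakDual ℝ C(K, ℝ)) g} :=
          closure_minimal (fun y hy => congrFun hφψ ⟨y, hy⟩) hcl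
        have h1 : (adj (P s) (hP.norm_le s) φ : WeakDual ℝ C(K, ℝ)) (P s f) =
            (adj (P s) (hP.norm_le s) ψ : WeakDual ℝ C(K, ℝ)) (P s f) := hsub (hcd ⟨f, rfl⟩)
        rw [adj_apply, adj_apply, hP.idem] at h1
        rw [adj_apply, adj_apply]
        exact h1
      exact (hJ.isClosedEmbedding hinj).isEmbedding.metrizableSpace
    · intro s t hst φ
      refine ext_ball fun f => ?_
      rw [adj_apply, adj_apply, adj_apply, hP.comp_right s t hst]
    · intro s t hst φ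
      refine ext_ball fun f => ?_
      rw [adj_apply, adj_apply, adj_apply, hP.comp_left s t hst]
    · intro s hs
      obtain ⟨t, ht, htr⟩ := hP.sup s hs
      refine ⟨t, ht, fun φ => tendsto_ball fun f => ?_⟩
      have hle : ∀ n, s n ≤ t := fun n => ht.1 ⟨n, rfl⟩
      have hnorm : Tendsto (fun n => P (s n) f) atTop (𝓝 (P t f)) := by
        rw [Metric.tendsto_atTop]
        intro ε hε
        have hmem : P t f ∈ closure (⋃ n, range (P (s n))) := by rw [← htr]; exact ⟨f, rfl⟩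
        obtain ⟨g, hg, hd⟩ := Metric.mem_closure_iff.1 hmem (ε / 2) (by linarith)
        obtain ⟨m, g', rfl⟩ := mem_iUnion.1 hg
        refine ⟨m, fun n hn => ?_⟩
        have e1 : P (s n) (P t f) = P (s n) f := hP.comp_left _ _ (hle n) f
        have e2 : P (s n) (P (s m) g') = P (s m) g' := hP.comp_right _ _ (hs.monotone hn) g'
        have e3 : ‖P (s n) (P t f - P (s m) g')‖ ≤ ‖P t f - P (s m) g'‖ := by
          refine ((P (s n)).le_opNorm _).trans ?_
          calc ‖P (s n)‖ * ‖P t f - P (s m) g'‖ ≤ 1 * ‖P t f - P (s m) g'‖ :=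
                mul_le_mul_of_nonneg_right (hP.norm_le _) (norm_nonneg _)
            _ = _ := one_mul _
        rw [map_sub, e1, e2] at e3
        rw [dist_eq_norm] at hd ⊢
        calc ‖P (s n) f - P t f‖ = ‖(P (s n) f - P (s m) g') - (P t f - P (s m) g')‖ := by
              congr 1; abel
          _ ≤ ‖P (s n) f - P (s m) g'‖ + ‖P t f - P (s m) g'‖ := norm_sub_le _ _
          _ < ε := by linarith
      exact ((WeakDual.toStrongDual (φ : WeakDual ℝ C(K, ℝ))).continuous.tendsto _).comp hnorm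
    · intro φ
      refine tendsto_ball fun f => ?_
      have hf : f ∈ ⋃ s, range (P s) := by rw [hP.cover]; trivial
      obtain ⟨s0, g, rfl⟩ := mem_iUnion.1 hf
      refine tendsto_const_nhds.congr' ?_
      filter_upwards [eventually_ge_atTop s0] with s hs
      rw [adj_apply, hP.comp_right s0 s hs]
  · rintro _ ⟨s, φ, rfl⟩ _ ⟨t, ψ, rfl⟩ a b ha hb hab
    obtain ⟨w, hsw, htw⟩ := hP.directed s t
    have hmem : a • (adj (P s) (hP.norm_le s) φ : WeakDual ℝ C(K, ℝ)) +
        b • (adj (P t) (hP.norm_le t) ψ : WeakDual ℝ C(K, ℝ)) ∈ DualBall K := by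
      refine mem_ball_of_bound fun f => ?_
      have h1 := ball_bound (adj (P s) (hP.norm_le s) φ).2 f
      have h2 := ball_bound (adj (P t) (hP.norm_le t) ψ).2 f
      calc |(a • (adj (P s) (hP.norm_le s) φ : WeakDual ℝ C(K, ℝ)) +
            b • (adj (P t) (hP.norm_le t) ψ : WeakDual ℝ C(K, ℝ))) f|
          = |a * (adj (P s) (hP.norm_le s) φ : WeakDual ℝ C(K, ℝ)) f +
            b * (adj (P t) (hP.norm_le t) ψ : WeakDual ℝ C(K, ℝ)) f| := rfl
        _ ≤ a * |(adj (P s) (hP.norm_le s) φ : WeakDual ℝ C(K, ℝ)) f| +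
            b * |(adj (P t) (hP.norm_le t) ψ : WeakDual ℝ C(K, ℝ)) f| := by
            refine (abs_add_le _ _).trans ?_
            rw [abs_mul, abs_mul, abs_of_nonneg ha, abs_of_nonneg hb]
        _ ≤ a * ‖f‖ + b * ‖f‖ := by gcongr
        _ = ‖f‖ := by rw [← add_mul, hab, one_mul]
    refine ⟨w, ⟨_, hmem⟩, DFunLike.ext _ _ fun f => ?_⟩
    show a * (φ : WeakDual ℝ C(K, ℝ)) (P s f) + b * (ψ : WeakDual ℝ C(K, ℝ)) (P t f) =
      a * (φ : WeakDual ℝ C(K, ℝ)) (P s (P w f)) + b * (ψ : WeakDual ℝ C(K, ℝ)) (P t (P w f))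
    rw [hP.comp_left s w hsw, hP.comp_left t w htw]
  · rintro _ ⟨s, φ, rfl⟩
    have hmem : -(φ : WeakDual ℝ C(K, ℝ)) ∈ DualBall K := mem_ball_of_bound fun f => by
      show |-((φ : WeakDual ℝ C(K, ℝ)) f)| ≤ ‖f‖
      rw [abs_neg]
      exact ball_bound φ.2 f
    exact ⟨s, ⟨_, hmem⟩, rfl⟩

end Adjoint

/-- For every compact Hausdorff space `K` (with its Borel sets): (iii) implies (ii), (ii) implies
(i), and (iii) implies (i). -/
theorem result (K : Type u) [TopologicalSpace K] [CompactSpace K] [T2Space K]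
    [MeasurableSpace K] [BorelSpace K] :
    (CondIII.{u, v} K → CondII.{u, v} K) ∧ (CondII.{u, v} K → CondI.{u, v} K) ∧
      (CondIII.{u, v} K → CondI.{u, v} K) :=
  ⟨fun h => condII_of_condI (condI_of_condIII h), condI_of_condII, condI_of_condIII⟩

end Pool.Agent.Results.MP_baa10a_an.ConvexSkeletons
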